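import Pool.Agent.H37.CP.Targets

/-!
# CPD: cutting planes refutations as triangle dags (helper68, board cpe_modules)
-/

namespace Pool.Agent.H68.CPE

open Finset Pool.Agent.H37.CP
open Pool.Agent.H1.LP (Clause viol Loc Sys supp ip)
open Pool.Agent.H96.KX (psz fac jun PDz)
open Pool.Agent.H91.AV (MomInd rhx bix kap)

/-- the `x`-part of the left side of a line -/
noncomputable def WW {X : Type} {n : ℕ} (side : Fin n → Bool) (g : Fin n → X → Bool)
    (L : Line n) (x : X) : ℝ :=
  ∑ i, if side i = true then L.1 i * (if g i x = true then 1 else 0) else 0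

/-- the right side of a line minus the `y`-part of its left side -/
noncomputable def UU {Y : Type} {n : ℕ} (side : Fin n → Bool) (f : Fin n → Y → Bool)
    (L : Line n) (y : Y) : ℝ :=
  L.2 - ∑ i, if side i = true then 0 else L.1 i * (if f i y = true then 1 else 0)

lemma holds_iff {Y X : Type} {n : ℕ} (side : Fin n → Bool) (f : Fin n → Y → Bool)
    (g : Fin n → X → Bool) (L : Line n) (y : Y) (x : X) :
    Holds L (asg side f g y x) ↔ UU side f L y ≤ WW side g L x := by
  unfold Holds UU WW
  have h1 : ∑ i, L.1 i * (if asg side f g y x i = true then (1 : ℝ) else 0) =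
      (∑ i, if side i = true then L.1 i * (if g i x = true then (1 : ℝ) else 0) else 0) +
        ∑ i, if side i = true then (0 : ℝ) else L.1 i * (if f i y = true then 1 else 0) := by
    rw [← Finset.sum_add_distrib]
    apply Finset.sum_congr rfl
    intro i _
    unfold asg
    by_cases h : side i = true
    · simp [h]
    · simp [h]
  rw [h1]
  constructor <;> intro h <;> linarith

lemma not_holds_iff {Y X : Type} {n : ℕ} (side : Fin n → Bool) (f : Fin n → Y → Bool)
    (g : Fin n → X → Bool) (L : Line n) (y : Y) (x : X) :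
    ¬ Holds L (asg side f g y x) ↔ WW side g L x < UU side f L y := by
  rw [holds_iff, not_le]

/-- the `y`-side of a leaf -/
def leY {Y : Type} {n m : ℕ} (phi : Fin m → Clause n) (side : Fin n → Bool)
    (f : Fin n → Y → Bool) (i : Fin m) : Set Y :=
  {y | ∀ q ∈ phi i, side q.1 = false → f q.1 y ≠ q.2}

open Classical in
/-- the `x`-side of a leaf -/
noncomputable def leX {X : Type} [Fintype X] {n m : ℕ} (phi : Fin m → Clause n)
    (side : Fin n → Bool) (g : Fin n → X → Bool) (i : Fin m) : Finset X :=
  Finset.univ.filter (fun x => ∀ q ∈ phi i, side q.1 = true → g q.1 x ≠ q.2)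

lemma mem_leY {Y : Type} {n m : ℕ} (phi : Fin m → Clause n) (side : Fin n → Bool)
    (f : Fin n → Y → Bool) (i : Fin m) (y : Y) :
    y ∈ leY phi side f i ↔ ∀ q ∈ phi i, side q.1 = false → f q.1 y ≠ q.2 := Iff.rfl

lemma mem_leX {X : Type} [Fintype X] {n m : ℕ} (phi : Fin m → Clause n)
    (side : Fin n → Bool) (g : Fin n → X → Bool) (i : Fin m) (x : X) :
    x ∈ leX phi side g i ↔ ∀ q ∈ phi i, side q.1 = true → g q.1 x ≠ q.2 := by
  simp [leX]

lemma not_sat_iff {Y X : Type} [Fintype X] {n m : ℕ} (phi : Fin m → Clause n)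
    (side : Fin n → Bool) (f : Fin n → Y → Bool) (g : Fin n → X → Bool) (i : Fin m) (y : Y)
    (x : X) :
    ¬ (phi i).Sat (asg side f g y x) ↔ y ∈ leY phi side f i ∧ x ∈ leX phi side g i := by
  rw [mem_leY, mem_leX]
  constructor
  · intro h
    refine ⟨fun q hq hs he => h ⟨q, hq, ?_⟩, fun q hq hs he => h ⟨q, hq, ?_⟩⟩
    · unfold asg
      rw [if_neg (by simp [hs])]
      exact he
    · unfold asg
      rw [if_pos hs]
      exact he
  · rintro ⟨h1, h2⟩ ⟨q, hq, he⟩
    unfold asg at he
    by_cases hs : side q.1 = true
    · rw [if_pos hs] at he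
      exact h2 q hq hs he
    · rw [if_neg hs] at he
      exact h1 q hq (by simpa using hs) he

lemma leaf_of {Y X : Type} [Fintype X] {n m : ℕ} (phi : Fin m → Clause n)
    (side : Fin n → Bool) (f : Fin n → Y → Bool) (g : Fin n → X → Bool) (i : Fin m)
    (L : Line n) (hL : ∀ v, (phi i).Sat v → Holds L v) (y : Y) (x : X)
    (h : WW side g L x < UU side f L y) : y ∈ leY phi side f i ∧ x ∈ leX phi side g i := by
  rw [← not_sat_iff]
  intro hs
  exact (not_holds_iff side f g L y x).2 h (hL _ hs)

/-- the tree of nodes of a tree of lines -/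
def toMT {n : ℕ} : Tree n → MT (Line n)
  | .ax l => .live l
  | .inf l p q => .node l (toMT p) (toMT q)

lemma toMT_top {n : ℕ} (p : Tree n) : (toMT p).top = p.top := by
  cases p <;> rfl

lemma toMT_cnt {n : ℕ} (p : Tree n) : (toMT p).cnt = p.size := by
  induction p with
  | ax l => rfl
  | inf l p q hp hq =>
    simp only [toMT, MT.cnt, Tree.size, hp, hq]

lemma toMT_cov {Y X : Type} [Fintype X] {n m : ℕ} (phi : Fin m → Clause n)
    (side : Fin n → Bool) (f : Fin n → Y → Bool) (g : Fin n → X → Bool) (Z : Y → X → Prop)
    (p : Tree n) (hp : p.Valid phi) :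
    (toMT p).Cov (leY phi side f) (leX phi side g) (WW side g) (UU side f) Z := by
  induction p with
  | ax l =>
    obtain ⟨i, hi⟩ := hp
    exact ⟨i, fun y x _ h => leaf_of phi side f g i l hi y x h⟩
  | inf l p q ihp ihq =>
    obtain ⟨h1, h2, h3⟩ := hp
    refine ⟨ihp h1, ihq h2, ?_⟩
    intro y x _ h
    rw [toMT_top, toMT_top]
    by_contra hcon
    rw [not_or, not_lt, not_lt, ← holds_iff side f g, ← holds_iff side f g] at hcon
    exact (not_holds_iff side f g l y x).2 h (h3 _ hcon.1 hcon.2)

theorem pf_CPD (hA : S_ABSC) (hT : S_TRB) : S_CPD := by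
  intro Y X _ _ n m R phi side f g V K δ hδ hY hX hmass hker hw hV
  choose ec hec using hV
  have hK : Ker K (leY phi side f) (leX phi side g) δ := by
    refine hker (Fin m) (leY phi side f) (leX phi side g) (fun i _ => ec i) ?_
    intro i y hy x hx
    exact hec i y x ((not_sat_iff phi side f g i y x).2 ⟨hy, hx⟩)
  have hXR : (0 : ℝ) < Fintype.card X := by exact_mod_cast hX
  have hYR : (0 : ℝ) < Fintype.card Y := by exact_mod_cast hY
  constructor
  · intro s d hs
    obtain ⟨line, dp, hdp, hst, j, hj⟩ := hs
    have hdag : Dag (leY phi side f) (leX phi side g) (fun v => WW side g (line v))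
        (fun v => UU side f (line v)) dp := by
      intro v
      rcases hst v with ⟨i, hi⟩ | ⟨j1, j2, h1, h2, h3⟩
      · left
        exact ⟨i, fun y x h => leaf_of phi side f g i (line v) hi y x h⟩
      · right
        refine ⟨j1, j2, h1, h2, ?_⟩
        intro y x h
        by_contra hcon
        rw [not_or, not_lt, not_lt, ← holds_iff side f g, ← holds_iff side f g] at hcon
        exact (not_holds_iff side f g (line v) y x).2 h (h3 _ hcon.1 hcon.2)
    refine ⟨?_, ?_⟩
    · rcases hst j with ⟨i, hi⟩ | ⟨j1, j2, h1, h2, h3⟩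
      · exfalso
        have hne : (phi i).Nonempty := by
          rw [← Finset.card_pos, (hw i).1]
          norm_num
        obtain ⟨q, hq⟩ := hne
        exact hj (fun _ => q.2) (hi (fun _ => q.2) ⟨q, hq, rfl⟩)
      · by_contra hs
        have hs1 : s ≤ 1 := by omega
        have : j1 = j := by
          apply Fin.ext
          have a1 := j1.2
          have a2 := j.2
          omega
        rw [this] at h1
        exact lt_irrefl _ h1
    · intro t p htp
      have h := hA Y X (Fin m) (Fin s) K (leY phi side f) (leX phi side g) δ hδ.le hK hmass hY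
        (fun v => WW side g (line v)) (fun v => UU side f (line v)) dp hdag Finset.univ j
        (fun y x _ => (not_holds_iff side f g (line j) y x).1 (hj _)) t p
        (le_trans (hdp j) htp)
      rw [Finset.card_univ, Fintype.card_fin] at h
      rw [Real.rpow_logb (by norm_num) (by norm_num) (by positivity), div_le_iff₀ hδ]
      exact le_of_mul_le_mul_right (by linarith) hXR
  · intro p hp htop
    have h := hT Y X (Fin m) (Line n) K (leY phi side f) (leX phi side g) δ hδ.le hK
      (WW side g) (UU side f) Finset.univ (toMT p) []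
      (toMT_cov phi side f g _ p hp)
      (fun y x _ => by
        rw [toMT_top]
        exact (not_holds_iff side f g p.top y x).1 (htop _))
    have hrow : ∀ y : Y, row ([] : List (Cmp Y X)) Finset.univ y = Finset.univ := by
      intro y
      simp [row]
    have hsum : ∑ y, ∑ x ∈ row ([] : List (Cmp Y X)) Finset.univ y, K y x =
        (Fintype.card Y : ℝ) * Fintype.card X := by
      simp only [hrow]
      rw [Finset.sum_comm]
      simp only [hmass]
      rw [Finset.sum_const, Finset.card_univ, nsmul_eq_mul, mul_comm]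
    rw [hsum, toMT_cnt] at h
    unfold gg at h
    simp only [List.length_nil, pow_zero, mul_one] at h
    have hpos : (0 : ℝ) < (Fintype.card Y : ℝ) * Fintype.card X := mul_pos hYR hXR
    exact le_of_mul_le_mul_right (by linarith) hpos

end Pool.Agent.H68.CPE
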